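import Pool.Agent.MP_5d23e6_lc.Defs

section

namespace Pool.Agent.MP_5d23e6_lc

open Filter Set Topology

noncomputable def cnt (A : Set ℕ) (n : ℕ) : ℝ := ((A ∩ Set.Iio n).ncard : ℝ)

def HasDens (S R : Set ℕ) (ρ : ℝ) : Prop := Tendsto (relRatio S R) atTop (𝓝 ρ)

lemma relRatio_eq (A B : Set ℕ) (n : ℕ) : relRatio A B n = cnt (A ∩ B) n / cnt B n := rfl

open Classical in
lemma cnt_eq_sum (A : Set ℕ) (n : ℕ) :
    cnt A n = ∑ x ∈ Finset.range n, if x ∈ A then (1 : ℝ) else 0 := by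
  have h : A ∩ Set.Iio n = ↑((Finset.range n).filter (· ∈ A)) := by
    ext x; simp [and_comm]
  rw [cnt, h, Set.ncard_coe_finset, Finset.card_filter]
  push_cast
  rfl

lemma cnt_nonneg (A : Set ℕ) (n : ℕ) : 0 ≤ cnt A n := by unfold cnt; positivity

lemma cnt_mono {A B : Set ℕ} (h : A ⊆ B) (n : ℕ) : cnt A n ≤ cnt B n := by
  classical
  rw [cnt_eq_sum, cnt_eq_sum]
  apply Finset.sum_le_sum
  intro x _
  by_cases hx : x ∈ A
  · simp [hx, h hx]
  · simp only [hx, if_false]; split_ifs <;> norm_num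

lemma cnt_split (A B : Set ℕ) (n : ℕ) : cnt A n = cnt (A ∩ B) n + cnt (A \ B) n := by
  classical
  rw [cnt_eq_sum, cnt_eq_sum, cnt_eq_sum, ← Finset.sum_add_distrib]
  apply Finset.sum_congr rfl
  intro x _
  by_cases hx : x ∈ A <;> by_cases hy : x ∈ B <;> simp [hx, hy]

lemma cnt_le_ncard {A : Set ℕ} (hA : A.Finite) (n : ℕ) : cnt A n ≤ A.ncard := by
  unfold cnt
  exact_mod_cast Set.ncard_le_ncard inter_subset_left hA

lemma cnt_tendsto {A : Set ℕ} (hA : A.Infinite) : Tendsto (cnt A) atTop atTop := by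
  rw [tendsto_atTop_atTop]
  intro b
  obtain ⟨s, hs, hcard⟩ := hA.exists_subset_card_eq ⌈b⌉₊
  refine ⟨s.sup id + 1, fun n hn => ?_⟩
  have h1 : (↑s : Set ℕ) ⊆ A ∩ Set.Iio n := by
    intro x hx
    refine ⟨hs hx, ?_⟩
    have : id x ≤ s.sup id := Finset.le_sup (f := id) hx
    simp only [id] at this
    simp only [mem_Iio]; omega
  have h2 := Set.ncard_le_ncard h1 ((Set.finite_Iio n).inter_of_right _)
  rw [Set.ncard_coe_finset, hcard] at h2
  calc b ≤ (⌈b⌉₊ : ℝ) := Nat.le_ceil b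
    _ ≤ cnt A n := by unfold cnt; exact_mod_cast h2

lemma relRatio_nonneg (A B : Set ℕ) (n : ℕ) : 0 ≤ relRatio A B n :=
  div_nonneg (cnt_nonneg _ _) (cnt_nonneg _ _)

lemma relRatio_le_one (A B : Set ℕ) (n : ℕ) : relRatio A B n ≤ 1 :=
  div_le_one_of_le₀ (cnt_mono inter_subset_right n) (cnt_nonneg _ _)

lemma relRatio_mono {A A' : Set ℕ} (h : A ⊆ A') (B : Set ℕ) (n : ℕ) :
    relRatio A B n ≤ relRatio A' B n :=
  div_le_div_of_nonneg_right (cnt_mono (inter_subset_inter_left _ h) n) (cnt_nonneg _ _)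

lemma relDensity_eq_some_iff (S R : Set ℕ) (ρ : ℝ) :
    relDensity S R = some ρ ↔ HasDens S R ρ := by
  have hb1 : IsBoundedUnder (· ≤ ·) atTop (relRatio S R) :=
    isBoundedUnder_of ⟨1, fun n => relRatio_le_one S R n⟩
  have hb2 : IsBoundedUnder (· ≥ ·) atTop (relRatio S R) :=
    isBoundedUnder_of ⟨0, fun n => relRatio_nonneg S R n⟩
  unfold relDensity HasDens
  constructor
  · intro h
    split_ifs at h with h1
    · have h2 : lowerRelDensity S R = ρ := Option.some.inj h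
      exact tendsto_of_liminf_eq_limsup h2 (h1.symm.trans h2) hb1 hb2
  · intro h
    have h1 : lowerRelDensity S R = ρ := h.liminf_eq
    have h2 : upperRelDensity S R = ρ := h.limsup_eq
    rw [if_pos (h1.trans h2.symm), h1]

lemma HasDens.infinite {S R : Set ℕ} {ρ : ℝ} (h : HasDens S R ρ) (hR : R.Infinite)
    (hρ : ρ ≠ 0) : (S ∩ R).Infinite := by
  intro hfin
  apply hρ
  have h0 : Tendsto (fun n => ((S ∩ R).ncard : ℝ) / cnt R n) atTop (𝓝 0) :=
    tendsto_const_nhds.div_atTop (cnt_tendsto hR)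
  have h1 : Tendsto (relRatio S R) atTop (𝓝 0) := by
    refine squeeze_zero (fun n => relRatio_nonneg S R n) (fun n => ?_) h0
    exact div_le_div_of_nonneg_right (cnt_le_ncard hfin n) (cnt_nonneg _ _)
  exact tendsto_nhds_unique h h1

lemma hasDens_univ {R : Set ℕ} (hR : R.Infinite) : HasDens univ R 1 := by
  refine tendsto_const_nhds.congr' ?_
  filter_upwards [(cnt_tendsto hR).eventually_gt_atTop 0] with n hn
  rw [relRatio_eq, univ_inter, div_self hn.ne']

lemma hasDens_self {R : Set ℕ} (hR : R.Infinite) : HasDens R R 1 := by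
  refine tendsto_const_nhds.congr' ?_
  filter_upwards [(cnt_tendsto hR).eventually_gt_atTop 0] with n hn
  rw [relRatio_eq, inter_self, div_self hn.ne']

lemma hasDens_empty (R : Set ℕ) : HasDens ∅ R 0 := by
  refine tendsto_const_nhds.congr fun n => ?_
  simp [relRatio]

lemma HasDens.diff {A B R : Set ℕ} {a b : ℝ} (hA : HasDens A R a) (hB : HasDens B R b)
    (h : B ⊆ A) : HasDens (A \ B) R (a - b) := by
  refine (Tendsto.sub hA hB).congr fun n => ?_
  rw [relRatio_eq, relRatio_eq, relRatio_eq, cnt_split (A ∩ R) B n]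
  have e1 : A ∩ R ∩ B = B ∩ R := by
    ext x; constructor
    · rintro ⟨⟨_, h2⟩, h3⟩; exact ⟨h3, h2⟩
    · rintro ⟨h1, h2⟩; exact ⟨⟨h h1, h2⟩, h1⟩
  have e2 : (A ∩ R) \ B = (A \ B) ∩ R := by
    ext x; simp only [Set.mem_sdiff, mem_inter_iff]; tauto
  rw [e1, e2]; ring

lemma HasDens.union {A B R : Set ℕ} {a b : ℝ} (hA : HasDens A R a) (hB : HasDens B R b)
    (h : Disjoint A B) : HasDens (A ∪ B) R (a + b) := by
  refine (Tendsto.add hA hB).congr fun n => ?_
  rw [relRatio_eq, relRatio_eq, relRatio_eq, cnt_split ((A ∪ B) ∩ R) B n]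
  have hd := Set.disjoint_left.mp h
  have e1 : (A ∪ B) ∩ R ∩ B = B ∩ R := by
    ext x; simp only [mem_inter_iff, mem_union]; tauto
  have e2 : ((A ∪ B) ∩ R) \ B = A ∩ R := by
    ext x; simp only [Set.mem_sdiff, mem_inter_iff, mem_union]
    have := @hd x
    tauto
  rw [e1, e2]; ring

lemma HasDens.compl {S R : Set ℕ} {ρ : ℝ} (h : HasDens S R ρ) (hR : R.Infinite) :
    HasDens Sᶜ R (1 - ρ) := by
  have := (hasDens_univ hR).diff h (subset_univ _)
  rwa [← compl_eq_univ_sdiff] at this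

lemma HasDens.mul {S C R : Set ℕ} {ρ c : ℝ} (hS : HasDens S (C ∩ R) ρ) (hC : HasDens C R c) :
    HasDens (S ∩ C) R (ρ * c) := by
  refine (Tendsto.mul hS hC).congr fun n => ?_
  rw [relRatio_eq, relRatio_eq, relRatio_eq, ← inter_assoc]
  by_cases h0 : cnt (C ∩ R) n = 0
  · have h1 : cnt (S ∩ C ∩ R) n = 0 := by
      apply le_antisymm _ (cnt_nonneg _ _)
      rw [← h0, inter_assoc]
      exact cnt_mono inter_subset_right n
    rw [h1]; simp
  · field_simp

end Pool.Agent.MP_5d23e6_lc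

end

section

namespace Pool.Agent.MP_5d23e6_lc

open Filter Set Topology

lemma cnt_agree {A B : Set ℕ} {a m : ℕ} (h : ∀ x, a ≤ x → x < m → (x ∈ A ↔ x ∈ B)) :
    |cnt A m - cnt B m| ≤ a := by
  classical
  rw [cnt_eq_sum, cnt_eq_sum, ← Finset.sum_sub_distrib]
  refine (Finset.abs_sum_le_sum_abs _ _).trans ?_
  calc ∑ x ∈ Finset.range m, |((if x ∈ A then (1 : ℝ) else 0) - if x ∈ B then (1 : ℝ) else 0)|
      ≤ ∑ x ∈ Finset.range m, (if x ∈ Finset.range a then (1 : ℝ) else 0) := by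
        apply Finset.sum_le_sum
        intro x hx
        rw [Finset.mem_range] at hx
        by_cases hxa : x < a
        · simp only [Finset.mem_range, hxa, if_true]
          split_ifs <;> norm_num
        · have := h x (not_lt.mp hxa) hx
          simp only [Finset.mem_range, hxa, if_false]
          by_cases hA : x ∈ A
          · simp [hA, this.mp hA]
          · have hB : x ∉ B := fun hB => hA (this.mpr hB)
            simp [hA, hB]
    _ ≤ a := by
        rw [Finset.sum_ite_mem, Finset.sum_const, nsmul_eq_mul, mul_one]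
        have := Finset.card_le_card (Finset.inter_subset_right (s₁ := Finset.range m)
          (s₂ := Finset.range a))
        rw [Finset.card_range] at this
        exact_mod_cast this

lemma ratio_agree {S A B : Set ℕ} {a m : ℕ} (h : ∀ x, a ≤ x → x < m → (x ∈ A ↔ x ∈ B))
    (hpos : 0 < cnt A m) :
    |relRatio S A m - relRatio S B m| ≤ 2 * a / cnt A m := by
  have h1 := cnt_agree h
  have h2 : |cnt (S ∩ A) m - cnt (S ∩ B) m| ≤ a :=
    cnt_agree fun x hx hm => by simp only [mem_inter_iff, h x hx hm]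
  have hr0 := relRatio_nonneg S B m
  have hr1 := relRatio_le_one S B m
  have hr : cnt (S ∩ B) m = relRatio S B m * cnt B m := by
    rw [relRatio_eq]
    by_cases h0 : cnt B m = 0
    · have : cnt (S ∩ B) m = 0 :=
        le_antisymm (h0 ▸ cnt_mono inter_subset_right m) (cnt_nonneg _ _)
      rw [this, h0]; simp
    · field_simp
  set r := relRatio S B m
  rw [relRatio_eq, le_div_iff₀ hpos]
  have e : |cnt (S ∩ A) m / cnt A m - r| * cnt A m = |cnt (S ∩ A) m - r * cnt A m| := by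
    rw [← abs_of_pos hpos, ← abs_mul, abs_of_pos hpos]
    congr 1
    field_simp
  rw [e]
  rw [hr] at h2
  rw [abs_le] at h1 h2 ⊢
  constructor <;> nlinarith [h1.1, h1.2, h2.1, h2.2]

/-- Alternation lemma. -/
lemma exists_alternate {R₀ R₁ : Set ℕ} (h₀ : R₀.Infinite) (h₁ : R₁.Infinite) :
    ∃ Q : Set ℕ, Q.Infinite ∧ ∀ S ρ₀ ρ₁ τ, HasDens S R₀ ρ₀ → HasDens S R₁ ρ₁ → HasDens S Q τ →
      ρ₀ = ρ₁ := by
  classical
  have step : ∀ k a : ℕ, ∃ m : ℕ, a < m ∧ ((k : ℝ) + 1) * (a + 1) ≤ cnt R₀ m ∧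
      ((k : ℝ) + 1) * (a + 1) ≤ cnt R₁ m := by
    intro k a
    have e0 := (cnt_tendsto h₀).eventually_ge_atTop (((k : ℝ) + 1) * (a + 1))
    have e1 := (cnt_tendsto h₁).eventually_ge_atTop (((k : ℝ) + 1) * (a + 1))
    exact ((eventually_gt_atTop a).and (e0.and e1)).exists
  choose f hf using step
  obtain ⟨N, hN⟩ : ∃ N : ℕ → ℕ, ∀ k, N (k + 1) = f k (N k) :=
    ⟨fun k => Nat.rec 0 (fun k a => f k a) k, fun k => rfl⟩
  have hmono : StrictMono N := strictMono_nat_of_lt_succ fun k => by rw [hN]; exact (hf _ _).1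
  let P : ℕ → Set ℕ := fun k => if Even k then R₀ else R₁
  have hP : ∀ k : ℕ, ((k : ℝ) + 1) * (((N k : ℕ) : ℝ) + 1) ≤ cnt (P k) (N (k + 1)) := by
    intro k
    rw [hN]
    by_cases hk : Even k
    · simp only [P, hk, if_true]; exact (hf _ _).2.1
    · simp only [P, hk, if_false]; exact (hf _ _).2.2
  let Q : Set ℕ := {x | ∃ k, N k ≤ x ∧ x < N (k + 1) ∧ x ∈ P k}
  have hQ : ∀ k x, N k ≤ x → x < N (k + 1) → (x ∈ P k ↔ x ∈ Q) := by
    intro k x h1 h2
    constructor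
    · intro hx; exact ⟨k, h1, h2, hx⟩
    · rintro ⟨j, h3, h4, hx⟩
      have : j = k := by
        have a1 : j < k + 1 := hmono.lt_iff_lt.mp (lt_of_le_of_lt h3 h2)
        have a2 : k < j + 1 := hmono.lt_iff_lt.mp (lt_of_le_of_lt h1 h4)
        omega
      rwa [← this]
  have hpos : ∀ k, 0 < cnt (P k) (N (k + 1)) := fun k =>
    lt_of_lt_of_le (by positivity) (hP k)
  have key : ∀ (S : Set ℕ) (k : ℕ), |relRatio S (P k) (N (k + 1)) - relRatio S Q (N (k + 1))| ≤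
      2 / ((k : ℝ) + 1) := by
    intro S k
    refine (ratio_agree (hQ k) (hpos k)).trans ?_
    rw [div_le_div_iff₀ (hpos k) (by positivity)]
    have := hP k
    have h0 : (0 : ℝ) ≤ k := by positivity
    nlinarith
  have lim : ∀ S τ (g : ℕ → ℕ) (R : Set ℕ) (ρ : ℝ), Tendsto g atTop atTop → (∀ j, P (g j) = R) →
      HasDens S R ρ → HasDens S Q τ → ρ = τ := by
    intro S τ g R ρ hg hgR hρ hτ
    have hN' : Tendsto (fun j => N (g j + 1)) atTop atTop :=
      hmono.tendsto_atTop.comp ((tendsto_add_atTop_nat 1).comp hg)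
    have t1 : Tendsto (fun j => relRatio S R (N (g j + 1)) - relRatio S Q (N (g j + 1))) atTop
        (𝓝 (ρ - τ)) := (hρ.comp hN').sub (hτ.comp hN')
    have t2 : Tendsto (fun j => 2 / ((g j : ℝ) + 1)) atTop (𝓝 0) :=
      tendsto_const_nhds.div_atTop
        (tendsto_atTop_add_const_right _ _ (tendsto_natCast_atTop_atTop.comp hg))
    have t3 : Tendsto (fun j => relRatio S R (N (g j + 1)) - relRatio S Q (N (g j + 1))) atTop
        (𝓝 0) := by
      rw [tendsto_zero_iff_abs_tendsto_zero]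
      refine squeeze_zero (fun j => abs_nonneg _) (fun j => ?_) t2
      have := key S (g j)
      rw [hgR] at this
      exact this
    have := tendsto_nhds_unique t1 t3
    linarith
  refine ⟨Q, ?_, ?_⟩
  · intro hfin
    obtain ⟨k, hk⟩ := exists_nat_gt (Q.ncard : ℝ)
    have a1 := cnt_agree (hQ k)
    have a2 := cnt_le_ncard hfin (N (k + 1))
    have a3 := hP k
    rw [abs_le] at a1
    have h0 : (0 : ℝ) ≤ k := by positivity
    have h1 : (0 : ℝ) ≤ ((N k : ℕ) : ℝ) := by positivity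
    nlinarith [a1.2]
  · intro S ρ₀ ρ₁ τ a0 a1 aQ
    have b0 := lim S τ (fun j => 2 * j) R₀ ρ₀
      (tendsto_atTop_mono (fun j => by simp only [id]; omega) tendsto_id)
      (fun j => by simp [P]) a0 aQ
    have b1 := lim S τ (fun j => 2 * j + 1) R₁ ρ₁
      (tendsto_atTop_mono (fun j => by simp only [id]; omega) tendsto_id)
      (fun j => by simp [P]) a1 aQ
    rw [b0, b1]

/-- Greedy construction of a set of prescribed density. -/
lemma exists_dens_of_uniform (F : Set (Set ℕ)) (hF : ∀ R ∈ F, R.Infinite) {ε : ℝ} (hε : 0 < ε)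
    (H : ∀ C : Set ℕ, (∀ R ∈ F, (C ∩ R).Infinite) →
      ∃ S ρ, ε ≤ ρ ∧ ρ ≤ 1 / 2 ∧ ∀ R ∈ F, HasDens S (C ∩ R) ρ)
    {τ : ℝ} (h0 : 0 ≤ τ) (h1 : τ ≤ 1) : ∃ T, ∀ R ∈ F, HasDens T R τ := by
  classical
  let Good : (Set ℕ × Set ℕ) × (ℝ × ℝ) → Prop := fun p =>
    p.1.1 ⊆ p.1.2 ∧ p.2.1 ≤ τ ∧ τ ≤ p.2.2 ∧ p.2.1 < p.2.2 ∧
      ∀ R ∈ F, HasDens p.1.1 R p.2.1 ∧ HasDens p.1.2 R p.2.2
  have step : ∀ p : {p // Good p}, ∃ q : {p // Good p}, p.1.1.1 ⊆ q.1.1.1 ∧ q.1.1.2 ⊆ p.1.1.2 ∧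
      q.1.2.2 - q.1.2.1 ≤ (1 - ε) * (p.1.2.2 - p.1.2.1) := by
    rintro ⟨⟨⟨L, U⟩, ⟨l, u⟩⟩, hLU, hl, hu, hlu, hd⟩
    simp only at hLU hl hu hlu hd
    have hC : ∀ R ∈ F, HasDens (U \ L) R (u - l) := fun R hR =>
      (hd R hR).2.diff (hd R hR).1 hLU
    obtain ⟨S, ρ, hρ1, hρ2, hS⟩ := H (U \ L) fun R hR =>
      (hC R hR).infinite (hF R hR) (by linarith)
    have hD : ∀ R ∈ F, HasDens (S ∩ (U \ L)) R (ρ * (u - l)) := fun R hR =>
      (hS R hR).mul (hC R hR)
    have hc : 0 < u - l := by linarith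
    by_cases hcase : l + ρ * (u - l) ≤ τ
    · refine ⟨⟨((L ∪ S ∩ (U \ L), U), (l + ρ * (u - l), u)), ?_, hcase, hu, ?_, ?_⟩,
        subset_union_left, Subset.rfl, ?_⟩
      · exact union_subset hLU fun x hx => hx.2.1
      · show l + ρ * (u - l) < u
        nlinarith
      · intro R hR
        refine ⟨(hd R hR).1.union (hD R hR) ?_, (hd R hR).2⟩
        exact Set.disjoint_left.mpr fun x hx hx' => hx'.2.2 hx
      · show u - (l + ρ * (u - l)) ≤ (1 - ε) * (u - l)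
        nlinarith
    · refine ⟨⟨((L, U \ (S ∩ (U \ L))), (l, u - ρ * (u - l))), ?_, hl, ?_, ?_, ?_⟩,
        Subset.rfl, sdiff_subset, ?_⟩
      · exact fun x hx => ⟨hLU hx, fun hx' => hx'.2.2 hx⟩
      · show τ ≤ u - ρ * (u - l)
        nlinarith
      · show l < u - ρ * (u - l)
        nlinarith
      · intro R hR
        exact ⟨(hd R hR).1, (hd R hR).2.diff (hD R hR) fun x hx => hx.2.1⟩
      · show u - ρ * (u - l) - l ≤ (1 - ε) * (u - l)
        nlinarith
  choose f hf using step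
  let p0 : {p // Good p} := ⟨((∅, univ), (0, 1)), empty_subset _, h0, h1, zero_lt_one,
    fun R hR => ⟨hasDens_empty R, hasDens_univ (hF R hR)⟩⟩
  let p : ℕ → {p // Good p} := fun k => f^[k] p0
  have hp : ∀ k, p (k + 1) = f (p k) := fun k => Function.iterate_succ_apply' f k p0
  have hL : Monotone fun k => (p k).1.1.1 :=
    monotone_nat_of_le_succ fun k => by rw [hp]; exact (hf _).1
  have hU : Antitone fun k => (p k).1.1.2 :=
    antitone_nat_of_succ_le fun k => by rw [hp]; exact (hf _).2.1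
  have hε1 : ε ≤ 1 / 2 := by
    obtain ⟨S, ρ, a, b, _⟩ := H univ fun R hR => by rw [univ_inter]; exact hF R hR
    linarith
  have hgap : ∀ k, (p k).1.2.2 - (p k).1.2.1 ≤ (1 - ε) ^ k := by
    intro k
    induction k with
    | zero => simp [p, p0]
    | succ k ih =>
      rw [hp, pow_succ]
      refine (hf _).2.2.trans ?_
      have : 0 ≤ 1 - ε := by linarith
      nlinarith
  have hlim : Tendsto (fun k => (1 - ε) ^ k) atTop (𝓝 0) :=
    tendsto_pow_atTop_nhds_zero_of_lt_one (by linarith) (by linarith)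
  refine ⟨⋃ k, (p k).1.1.1, fun R hR => ?_⟩
  have hsub : ∀ k, (⋃ k, (p k).1.1.1) ⊆ (p k).1.1.2 := by
    intro k
    refine iUnion_subset fun j => ?_
    have a1 : (p j).1.1.1 ⊆ (p (max j k)).1.1.1 := hL (le_max_left j k)
    have a2 : (p (max j k)).1.1.2 ⊆ (p k).1.1.2 := hU (le_max_right j k)
    exact a1.trans ((p (max j k)).2.1.trans a2)
  unfold HasDens
  rw [tendsto_order]
  constructor
  · intro a ha
    obtain ⟨k, hk⟩ := (hlim.eventually_lt_const (show 0 < τ - a by linarith)).exists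
    obtain ⟨_, b1, b2, _, b4⟩ := (p k).2
    have c1 : a < (p k).1.2.1 := by linarith [hgap k]
    filter_upwards [(b4 R hR).1.eventually_const_lt c1] with n hn
    exact hn.trans_le (relRatio_mono (subset_iUnion (fun k => (p k).1.1.1) k) R n)
  · intro a ha
    obtain ⟨k, hk⟩ := (hlim.eventually_lt_const (show 0 < a - τ by linarith)).exists
    obtain ⟨_, b1, b2, _, b4⟩ := (p k).2
    have c1 : (p k).1.2.2 < a := by linarith [hgap k]
    filter_upwards [(b4 R hR).2.eventually_lt_const c1] with n hn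
    exact (relRatio_mono (hsub k) R n).trans_lt hn

end Pool.Agent.MP_5d23e6_lc

end

section

namespace Pool.Agent.MP_5d23e6_lc

open Filter Set Topology
open Cardinal hiding univ

lemma exists_alt_base (Y : Set ℕ) :
    ∃ S : Set ℕ, ∀ n, |2 * cnt (S ∩ Y) n - cnt Y n| ≤ 1 := by
  classical
  refine ⟨{x | Even (Nat.count (· ∈ Y) x)}, fun n => ?_⟩
  have : 2 * cnt ({x | Even (Nat.count (· ∈ Y) x)} ∩ Y) n - cnt Y n =
      if Even (Nat.count (· ∈ Y) n) then 0 else 1 := by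
    induction n with
    | zero => simp [cnt]
    | succ n ih =>
      rw [cnt_eq_sum, cnt_eq_sum] at ih ⊢
      rw [Finset.sum_range_succ, Finset.sum_range_succ, Nat.count_succ]
      by_cases hY : n ∈ Y <;> by_cases hE : Even (Nat.count (· ∈ Y) n) <;>
        simp only [hY, hE, mem_inter_iff, mem_ofPred_eq, if_true, if_false, and_true, and_false,
          Nat.even_add_one, not_true, not_false_iff, add_zero] at ih ⊢ <;> linarith
  rw [this]
  split_ifs <;> norm_num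

lemma exists_bdd_disc (F : Set (Set ℕ)) (hF : F.Finite) :
    ∀ Y : Set ℕ, ∃ (S : Set ℕ) (K : ℝ), ∀ R ∈ insert univ F, ∀ n,
      |2 * cnt (S ∩ (R ∩ Y)) n - cnt (R ∩ Y) n| ≤ K := by
  induction F, hF using Set.Finite.induction_on with
  | empty =>
    intro Y
    obtain ⟨S, hS⟩ := exists_alt_base Y
    refine ⟨S, 1, fun R hR n => ?_⟩
    have : R = univ := by simpa using hR
    rw [this, univ_inter]
    exact hS n
  | @insert Q F _ _ ih =>
    intro Y
    obtain ⟨S₁, K₁, h₁⟩ := ih (Y ∩ Q)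
    obtain ⟨S₂, K₂, h₂⟩ := ih (Y \ Q)
    have hK₂ : 0 ≤ K₂ := (abs_nonneg _).trans (h₂ univ (mem_insert _ _) 0)
    refine ⟨(S₁ ∩ Q) ∪ (S₂ \ Q), K₁ + K₂, fun R hR n => ?_⟩
    by_cases hRQ : R = Q
    · have a := h₁ univ (mem_insert _ _) n
      have e1 : (S₁ ∩ Q ∪ S₂ \ Q) ∩ (R ∩ Y) = S₁ ∩ (univ ∩ (Y ∩ Q)) := by
        ext x; simp only [hRQ, mem_inter_iff, mem_union, Set.mem_sdiff, mem_univ]; tauto
      have e2 : R ∩ Y = univ ∩ (Y ∩ Q) := by
        ext x; simp only [hRQ, mem_inter_iff, mem_univ]; tauto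
      rw [e1, e2]
      linarith
    · have hR' : R ∈ insert univ F := by
        rcases hR with h | h | h
        · exact Or.inl h
        · exact absurd h hRQ
        · exact Or.inr h
      have a1 := h₁ R hR' n
      have a2 := h₂ R hR' n
      rw [cnt_split ((S₁ ∩ Q ∪ S₂ \ Q) ∩ (R ∩ Y)) Q n, cnt_split (R ∩ Y) Q n]
      have e1 : (S₁ ∩ Q ∪ S₂ \ Q) ∩ (R ∩ Y) ∩ Q = S₁ ∩ (R ∩ (Y ∩ Q)) := by
        ext x; simp only [mem_inter_iff, mem_union, Set.mem_sdiff]; tauto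
      have e2 : ((S₁ ∩ Q ∪ S₂ \ Q) ∩ (R ∩ Y)) \ Q = S₂ ∩ (R ∩ (Y \ Q)) := by
        ext x; simp only [mem_inter_iff, mem_union, Set.mem_sdiff]; tauto
      have e3 : R ∩ Y ∩ Q = R ∩ (Y ∩ Q) := inter_assoc _ _ _
      have e4 : (R ∩ Y) \ Q = R ∩ (Y \ Q) := by
        ext x; simp only [mem_inter_iff, Set.mem_sdiff]; tauto
      rw [e1, e2, e3, e4]
      rw [abs_le] at a1 a2 ⊢
      constructor <;> linarith [a1.1, a1.2, a2.1, a2.2]

lemma exists_bisect_finite (F : Set (Set ℕ)) (hF : F.Finite) (hinf : ∀ R ∈ F, R.Infinite) :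
    ∃ S, ∀ R ∈ F, HasDens S R (1 / 2) := by
  obtain ⟨S, K, h⟩ := exists_bdd_disc F hF univ
  refine ⟨S, fun R hR => ?_⟩
  have hb : ∀ n, |2 * cnt (S ∩ R) n - cnt R n| ≤ K := by
    intro n
    have := h R (Or.inr hR) n
    rwa [inter_univ] at this
  have t0 : Tendsto (fun n => K / cnt R n) atTop (𝓝 0) :=
    tendsto_const_nhds.div_atTop (cnt_tendsto (hinf R hR))
  have t1 : Tendsto (fun n => 2 * relRatio S R n - 1) atTop (𝓝 0) := by
    rw [tendsto_zero_iff_abs_tendsto_zero]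
    refine squeeze_zero' (Eventually.of_forall fun n => abs_nonneg _) ?_ t0
    filter_upwards [(cnt_tendsto (hinf R hR)).eventually_gt_atTop 0] with n hn
    have e : 2 * relRatio S R n - 1 = (2 * cnt (S ∩ R) n - cnt R n) / cnt R n := by
      rw [relRatio_eq]; field_simp
    simp only [Function.comp]
    rw [e, abs_div, abs_of_pos hn]
    exact div_le_div_of_nonneg_right (hb n) hn.le
  have t2 := (t1.add_const 1).div_const 2
  simp only [zero_add] at t2
  refine t2.congr fun n => ?_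
  ring

/-- uniform value of the density over a small family -/
lemma exists_common {κ : Cardinal} (hκ : ℵ₀ ≤ κ)
    (H : ∀ F : Set (Set ℕ), (∀ R ∈ F, R.Infinite) → #F ≤ κ →
      ∃ S, ∀ R ∈ F, ∃ ρ ∈ Ioo (0 : ℝ) 1, HasDens S R ρ)
    (F : Set (Set ℕ)) (hF : ∀ R ∈ F, R.Infinite) (hc : #F ≤ κ) :
    ∃ S, ∃ ρ ∈ Ioo (0 : ℝ) 1, ∀ R ∈ F, HasDens S R ρ := by
  have : ∀ R : F, ∃ Q : Set ℕ, Q.Infinite ∧ ∀ S ρ₀ ρ₁ τ, HasDens S univ ρ₀ → HasDens S R ρ₁ →
      HasDens S Q τ → ρ₀ = ρ₁ := fun R => exists_alternate infinite_univ (hF R R.2)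
  choose g hg using this
  obtain ⟨S, hS⟩ := H (insert univ (F ∪ range g)) (by
      rintro R (rfl | hR | ⟨R', rfl⟩)
      · exact infinite_univ
      · exact hF R hR
      · exact (hg R').1) (by
      refine (mk_insert_le).trans ?_
      refine Cardinal.add_le_of_le hκ ?_ (one_le_aleph0.trans hκ)
      refine (mk_union_le _ _).trans ?_
      exact Cardinal.add_le_of_le hκ hc (mk_range_le.trans hc))
  obtain ⟨ρ, hρ, hρS⟩ := hS univ (mem_insert _ _)
  refine ⟨S, ρ, hρ, fun R hR => ?_⟩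
  obtain ⟨ρ₁, _, h1⟩ := hS R (Or.inr (Or.inl hR))
  obtain ⟨τ, _, h2⟩ := hS (g ⟨R, hR⟩) (Or.inr (Or.inr ⟨_, rfl⟩))
  have := (hg ⟨R, hR⟩).2 S ρ ρ₁ τ hρS h1 h2
  rwa [this]

lemma exists_eps {κ : Cardinal} (hκ : ℵ₀ ≤ κ)
    (H : ∀ F : Set (Set ℕ), (∀ R ∈ F, R.Infinite) → #F ≤ κ →
      ∃ S, ∀ R ∈ F, ∃ ρ ∈ Ioo (0 : ℝ) 1, HasDens S R ρ) :
    ∃ ε : ℝ, 0 < ε ∧ ∀ F : Set (Set ℕ), (∀ R ∈ F, R.Infinite) → #F ≤ κ →
      ∃ S ρ, ε ≤ ρ ∧ ρ ≤ 1 / 2 ∧ ∀ R ∈ F, HasDens S R ρ := by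
  by_contra hcon
  have h1 : ∀ n : ℕ, ∃ F : Set (Set ℕ), (∀ R ∈ F, R.Infinite) ∧ #F ≤ κ ∧
      ¬ ∃ S ρ, 1 / ((n : ℝ) + 1) ≤ ρ ∧ ρ ≤ 1 / 2 ∧ ∀ R ∈ F, HasDens S R ρ := by
    intro n
    by_contra h
    apply hcon
    refine ⟨1 / ((n : ℝ) + 1), by positivity, fun F a b => ?_⟩
    by_contra h'
    exact h ⟨F, a, b, h'⟩
  choose G hG1 hG2 hG3 using h1
  have hinf : ∀ R ∈ ⋃ n, G n, R.Infinite := by
    intro R hR
    obtain ⟨n, hn⟩ := mem_iUnion.mp hR
    exact hG1 n R hn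
  have hcard : #(⋃ n, G n) ≤ κ := by
    refine (mk_iUnion_le _).trans ?_
    rw [mk_nat]
    refine Cardinal.mul_le_of_le hκ hκ ?_
    exact ciSup_le hG2
  obtain ⟨S, ρ, hρ, hS⟩ := exists_common hκ H _ hinf hcard
  have h2 : ∃ S ρ, 0 < ρ ∧ ρ ≤ 1 / 2 ∧ ∀ R ∈ ⋃ n, G n, HasDens S R ρ := by
    by_cases h : ρ ≤ 1 / 2
    · exact ⟨S, ρ, hρ.1, h, hS⟩
    · refine ⟨Sᶜ, 1 - ρ, by linarith [hρ.2], by linarith, fun R hR => ?_⟩
      exact (hS R hR).compl (hinf R hR)
  obtain ⟨S, ρ, a, b, c⟩ := h2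
  obtain ⟨n, hn⟩ := exists_nat_one_div_lt a
  exact hG3 n ⟨S, ρ, hn.le, b, fun R hR => c R (mem_iUnion.mpr ⟨n, hR⟩)⟩

lemma isReaping_all : IsReapingFamily (some '' Ioo (0 : ℝ) 1) {R | R.Infinite} := by
  refine ⟨fun R hR => hR, fun S hS _ => ⟨S, hS, ?_⟩⟩
  rw [(relDensity_eq_some_iff S S 1).mpr (hasDens_self hS)]
  rintro ⟨ρ, hρ, h⟩
  have := Option.some.inj h
  linarith [hρ.2]

lemma IsReapingFamily.mono {X Y : Set (Option ℝ)} (h : X ⊆ Y) {F : Set (Set ℕ)}
    (hF : IsReapingFamily Y F) : IsReapingFamily X F :=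
  ⟨hF.1, fun S a b => by
    obtain ⟨R, hR, h'⟩ := hF.2 S a b
    exact ⟨R, hR, fun hx => h' (h hx)⟩⟩

lemma reapingNumber_le {X : Set (Option ℝ)} {F : Set (Set ℕ)} (hF : IsReapingFamily X F) :
    reapingNumber X ≤ #F := csInf_le' ⟨F, hF, rfl⟩

lemma exists_reaping {X : Set ℝ} (hX : X ⊆ Ioo 0 1) :
    ∃ F, IsReapingFamily (some '' X) F ∧ #F = reapingNumber (some '' X) :=
  csInf_mem (s := {c : Cardinal | ∃ 𝓡 : Set (Set ℕ), IsReapingFamily (some '' X) 𝓡 ∧ #𝓡 = c})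
    ⟨_, _, isReaping_all.mono (image_mono hX), rfl⟩

lemma not_reaping {X : Set ℝ} {τ : ℝ} (hτ : τ ∈ X) (h0 : 0 < τ) (h1 : τ < 1) {F : Set (Set ℕ)}
    (hF : IsReapingFamily (some '' X) F) :
    ¬ ∃ T, ∀ R ∈ insert univ F, HasDens T R τ := by
  rintro ⟨T, hT⟩
  have a := hT univ (mem_insert _ _)
  have b := a.infinite infinite_univ h0.ne'
  have c := (a.compl infinite_univ).infinite infinite_univ (by linarith)
  rw [inter_univ] at b c
  obtain ⟨R, hR, h⟩ := hF.2 T b c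
  exact h ⟨τ, hτ, ((relDensity_eq_some_iff T R τ).mpr (hT R (Or.inr hR))).symm⟩

theorem reaping_eq_Ioo {X : Set ℝ} (hne : X.Nonempty) (hX : X ⊆ Ioo 0 1) :
    reapingNumber (some '' X) = reapingNumber (some '' Ioo (0 : ℝ) 1) := by
  apply le_antisymm
  · obtain ⟨F, hF, hc⟩ := exists_reaping (X := Ioo 0 1) Subset.rfl
    rw [← hc]
    exact reapingNumber_le (hF.mono (image_mono hX))
  · obtain ⟨F, hF, hc⟩ := exists_reaping hX
    obtain ⟨τ, hτ⟩ := hne
    have h0 := (hX hτ).1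
    have h1 := (hX hτ).2
    rw [← hc]
    by_contra hlt
    rw [not_le] at hlt
    apply not_reaping hτ h0 h1 hF
    have hinf : ∀ R ∈ insert univ F, R.Infinite := by
      rintro R (rfl | hR)
      · exact infinite_univ
      · exact hF.1 R hR
    by_cases hfin : F.Finite
    · refine exists_dens_of_uniform _ hinf (ε := 1 / 2) (by norm_num) ?_ h0.le h1.le
      intro C hC
      obtain ⟨S, hS⟩ := exists_bisect_finite ((fun R => C ∩ R) '' insert univ F)
        ((hfin.insert _).image _) (by rintro _ ⟨R, hR, rfl⟩; exact hC R hR)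
      exact ⟨S, 1 / 2, le_rfl, le_rfl, fun R hR => hS _ ⟨R, hR, rfl⟩⟩
    · have hκ : ℵ₀ ≤ #F := by
        rw [Cardinal.aleph0_le_mk_iff]
        exact Set.infinite_coe_iff.mpr hfin
      have H : ∀ G : Set (Set ℕ), (∀ R ∈ G, R.Infinite) → #G ≤ #F →
          ∃ S, ∀ R ∈ G, ∃ ρ ∈ Ioo (0 : ℝ) 1, HasDens S R ρ := by
        intro G hG hcG
        by_contra hcon
        have : IsReapingFamily (some '' Ioo (0 : ℝ) 1) G := by
          refine ⟨hG, fun S _ _ => ?_⟩
          by_contra h'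
          apply hcon
          refine ⟨S, fun R hR => ?_⟩
          by_contra h''
          apply h'
          refine ⟨R, hR, ?_⟩
          rintro ⟨ρ, hρ, e⟩
          exact h'' ⟨ρ, hρ, (relDensity_eq_some_iff S R ρ).mp e.symm⟩
        exact absurd ((reapingNumber_le this).trans hcG) (not_le.mpr hlt)
      obtain ⟨ε, hε, hE⟩ := exists_eps hκ H
      refine exists_dens_of_uniform _ hinf hε ?_ h0.le h1.le
      intro C hC
      obtain ⟨S, ρ, a, b, hS⟩ := hE ((fun R => C ∩ R) '' insert univ F)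
        (by rintro _ ⟨R, hR, rfl⟩; exact hC R hR)
        (mk_image_le.trans (mk_insert_le.trans
          (Cardinal.add_le_of_le hκ le_rfl (one_le_aleph0.trans hκ))))
      exact ⟨S, ρ, a, b, fun R hR => hS _ ⟨R, hR, rfl⟩⟩

theorem reaping_eq_half (X : Set ℝ) (hne : X.Nonempty) (hX : X ⊆ Ioo 0 1) :
    reapingNumber (some '' X) = reapingNumber {some (1 / 2)} := by
  have h := reaping_eq_Ioo (X := {1 / 2}) (singleton_nonempty _)
    (singleton_subset_iff.mpr ⟨by norm_num, by norm_num⟩)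
  rw [image_singleton] at h
  rw [h]
  exact reaping_eq_Ioo hne hX

end Pool.Agent.MP_5d23e6_lc

end
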